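import Mathlib
import Pool.Agent.Run7.h370.TY.ElemUse
import Pool.Agent.Run7.h370.TY.Tower
import Pool.Agent.TH117.BL.Main

/-!
# The Tate conjecture for abelian varieties over finite fields whose slopes are nondegenerate modulo a
prime, and for the ordinary ones with CM fields with nonsquare products

Let `E k` be finitely many CM fields and `u k i`, `i : I k`, finitely many integral functions on the
complex embeddings of `E k` with `u k i (conj φ) = - u k i φ`. They will be the deviations of the slopes
from their mean, up to a factor. Nothing is assumed about the Galois groups of the fields. Different
fields are flipped (`FieldsFlipped`): for complex embeddings `φ` of `E k` and `ψ` of `E l`, `k ≠ l`,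
some automorphism of `ℂ` fixes one of them and maps the other one to its complex conjugate. This is
no condition if there is only one field, and it is true if the normal closures of the fields are
linearly disjoint. For each `k` we assume one of the following two conditions (`IsNondegenerate`):

1. (`NondegenerateModulo`) There are a prime number `r` and a group `H` of automorphisms of `ℂ` each
  of which acts on the set of the embeddings `φ` of `E k` with an order that is a power of `r` (so this
  is any subgroup of `r`-power order of the Galois group of the normal closure, for instance a Sylow
  subgroup, with any orbits), such that: if `b i` are functions on the embeddings with values in
  `ℤ / r`, invariant under `H`, with `b i (conj φ) = - b i φ` and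
  `∑ i, ∑ φ, b i φ * u k i (g φ) = 0` for all automorphisms `g` of `ℂ`, the sum over representatives `φ`
  of the pairs of conjugate embeddings, then all `b i` are zero. So for each pair of conjugate orbits
  of `H` there is one unknown number modulo `r` for each `i`, and the condition is that the linear
  equations for them, one for each `g`, have only the trivial solution.
2. (`NonsquareProducts`) There is only one function `u k i`, **all of its values are odd** (for
  instance `1` and `- 1`, the case of ordinary abelian varieties), and there is a number `ε` in `E k` with
  `conj ε = - ε` such that for all nonempty sets `B` of complex embeddings `φ` of `E k` which consist of
  an even number of pairs of conjugate embeddings, and for which the number of the translates under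
  the automorphisms of `ℂ` is odd (so `B` is stable under a Sylow 2-subgroup `P` of the Galois group),
  the product of the numbers `φ ε`, `φ ∈ B`, is not the square of an algebraic number of odd degree. In
  other words, some element of `P` acts on `B` as an odd permutation. This is a condition on the field
  only.

The second part of the theorem says that the condition on the field is satisfied (`NonsquareNorms`)
if the field is an extension of 2-power degree of a field `R` whose normal closure over `ℚ` has odd
degree, and if for all nonempty sets `S` of complex embeddings of `R` (with an even number of elements,
if the field is quadratic over `R`) the product of the numbers `σ (N ε)`, `σ ∈ S`, is not the square of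
an algebraic number of odd degree, where `N ε` is the norm of `ε` to `R`, for some `ε` with
`conj ε = - ε`. For `R = ℚ` the condition is that the norm of `ε` is not the square of a rational number
(if the degree of the field is a power of `2` and at least `4`).

Over an algebraic closure of the field with `p` elements each abelian variety is isogenous to the
reduction of an abelian variety of CM type (Honda, Tate). So an abelian variety over the field with
`p ^ a` elements is modelled by `RedAV`: a finite product of CM types `(E i, Φ i)` with Weil numbers
`π i ∈ E i` that satisfy the formula of Shimura and Taniyama; its cohomology of degree `n`, with
coefficients in an algebraically closed field `Ω`, consists of the alternating `n`-forms on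
`Ω ⊗ H_1`, on which the Frobenius endomorphism acts by `π`. We fix an isomorphism `ν` of the algebraic
closure of `ℚ_p` with `ℂ`; it defines a `p`-adic valuation of `ℂ`, with the value one at `p`.

Let `𝒞` (`OfSlopes`) be the class of the abelian varieties `Y` each of whose factors is supersingular or
has a Frobenius endomorphism some power of which (with exponent `s`, say) is, for some `k` and `i`, a
number `x` in `E k` whose slopes are given by `u k i`: `2 ord_p (φ x) - s a = s b k * u k i φ` for all `φ`,
where the real number `b k ≠ 0` depends only on `Y` and `k`. The class contains all products of powers
of its members, and the products of its members with supersingular abelian varieties. If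
`u k i = 1` on a CM type `Φ` and `- 1` outside of it, then for `b k = a` these are the ordinary abelian
varieties with the CM type `Φ`.

The conclusion. **Each Tate class over a finite extension of the base field on an abelian variety `Y`
in `𝒞` (`IsTateClass Ω Y s m f`: a class of degree `2 m` which the `s`-th power of the Frobenius
endomorphism multiplies by `p ^ (a s m)`) is in `Alg Ω Y`**, the span of the classes that are obtained
from classes of divisors and from the split Weil classes of degree four and six of the liftings
(Markman; not needed here) by cup products, pull-backs and push-forwards. These classes are algebraic.
So the Tate conjecture is true for all `Y` in `𝒞`, all prime numbers `ℓ ≠ p` and all degrees, over all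
finite fields. That relations between the Frobenius eigenvalues that come from complex conjugate pairs
only give Tate classes of this kind was formalized by helper117 (MP_ee618e_ag ElementaryRelations).

The starting files contain criteria of this kind: `PrimePowerCentre` and `OddClasses` of
MP_0d42ed_ag (where the `r`-group is transitive on the pairs of conjugate embeddings, or more generally
on those of a class of embeddings that are not flipped; they contain the second condition for the
fields of 2-power degree, in the form that some automorphism acts as an odd permutation of the
embeddings), `OneFrobeniusSignature` and `FrobeniusPrimePower` (odd `r`, transitive on the embeddings
over those of an imaginary quadratic field), `OneFrobeniusTowers` (towers over CM fields, odd `r`). New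
here are arbitrary groups of prime power order with several orbits, several functions on the same
field, and the second condition for groups with several orbits (so for fields of arbitrary degree).
The derivation of the conclusion from the absence of relations is a theorem of the starting files.

The proof. A relation between the Frobenius eigenvalues gives, by the `p`-adic valuations of its images
under all automorphisms, relations for each field separately since the fields are flipped:
`∑ i, ∑ φ, c i φ * u i (g φ) = 0` for all `g`, with integral functions `c i` with
`c i (conj φ) = - c i φ`. If `c ≠ 0` we divide it by the greatest common divisor of its values.

In the first case we restrict the relations to representatives of the pairs of conjugate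
embeddings (the restricted relations are still true, as the two halves of the sum are equal), and
reduce them modulo `r`. So the space of the odd functions modulo `r` with all the relations is not
zero. Its number of elements is a power of `r`, the group `H` acts on it through a group of `r`-power
order, so it contains a nonzero function which is invariant under `H`, a contradiction.

In the second case all the relations are the same modulo `2`, since all values of `u` are odd. But the
differences of two of the restricted relations can be divided by `2`: so modulo `2` we have
`∑ c φ = 0`, and `∑ c φ = 0` where the sum is only over those pairs of conjugate embeddings for which
`u (g φ)` and `u φ` are different modulo `4`. The space of the functions modulo `2` with these relations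
is stable under the Galois group. So it contains a nonzero function `b` which is invariant under a Sylow
2-subgroup `P`. Let `B` be the set of the embeddings with `b = 1`, and let `y` be the product of the
numbers `φ (ε)`, for all `φ` in `B` with `u φ = 1` modulo `4`. Then `B` consists of an even number of
pairs, `y ^ 2` is the product of the numbers `φ (ε)`, `φ ∈ B`, and the relations for `g ∈ P` say that
`y` is invariant under `P`. So the degree of `y` is odd, a contradiction. In the second part `P` acts
trivially on the embeddings of `R`, and transitively on the embeddings over each of them, so `B`
consists of all the embeddings over a set `S`.
-/

set_option autoImplicit false

namespace Pool.Agent.Results.MP_ee618e_ag.NondegenerateSlopes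

open NumberField Module Pool.Agent.W495.TA Run7.h370.MR Run7.h370.TY Pool.Agent.W547.KB

/-- **The Tate conjecture for all abelian varieties over finite fields whose slopes are nondegenerate
modulo a prime number, and for those with odd slope deviations in CM fields with nonsquare products.** -/
theorem result :
    (∀ (p : ℕ) [Fact p.Prime] (ν : PadicAlgCl p ≃+* ℂ) (κ : Type) [Fintype κ] (E : κ → Type)
      [∀ k, Field (E k)] [∀ k, NumberField (E k)] [∀ k, IsCMField (E k)] (I : κ → Type)
      [∀ k, Fintype (I k)] (u : ∀ k, I k → (E k →+* ℂ) → ℤ), FieldsFlipped E →
      (∀ k i φ, u k i (ComplexEmbedding.conjugate φ) = - u k i φ) → (∀ k, IsNondegenerate (u k)) →
        ∀ (Ω : Type) [Field Ω] [CharZero Ω] [IsAlgClosed Ω] (Y : RedAV p ν), OfSlopes u Y →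
          ∀ (s m : ℕ) (f : (TM Ω Y) [⋀^Fin (2 * m)]→ₗ[Ω] Ω), 0 < s → IsTateClass Ω Y s m f →
            Alg Ω Y (Fin (2 * m)) f) ∧
    ∀ (R E : Type) [Field R] [NumberField R] [Field E] [NumberField E] [IsCMField E]
      [Algebra R E], NonsquareNorms R E → NonsquareProducts E := by
  refine ⟨?_, fun R E _ _ _ _ _ _ h => nonsquareProducts_of_norms h⟩
  intro p _ ν κ _ E _ _ _ I _ u hE hodd hu Ω _ _ _ Y hY s m f hs hf
  exact Pool.Agent.TH117.BL.elementary Y (elementary_of_slopes hE hu hodd hY) Ω Y (powers_self Y)
    s m hs f hf

end Pool.Agent.Results.MP_ee618e_ag.NondegenerateSlopes
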