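import Pool.Agent.Run7.h142.CF.Main

/-!
# The Tate conjecture for all abelian varieties of characteristic `p` follows from products `A × B × C × E`,
# with `E` a fixed supersingular elliptic curve, in codimension two, for one prime `ℓ`

The setting. Let `C j` be abelian varieties (or curves) over the algebraic closure of the field with `p`
elements. The properties which are used are the following ones (`IsComplete`): the cohomology is
generated by the classes of algebraic cycles and by `H¹`, an algebraic class defines a nondegenerate
form on `H¹`, and each possible Newton function of weight one occurs in `H¹` of one of the `C j`. By the
theorem of Honda this is true for the family of all abelian varieties, or of all simple ones, or of all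
curves. One of the varieties, `E = C e`, has a nonzero class in `H¹` with slope `1 / 2` at all places
(`HasHalf`), for instance `E` is a supersingular elliptic curve. Let `W` be the `ℓ`-adic cohomology for
one prime `ℓ` with coefficients in an algebraic closure of `ℚ_ℓ`, and let `W'` be the cohomology for
another prime `ℓ'`, or crystalline cohomology (or `W' = W`).

**Theorem.**
1. *All Tate classes, of all codimensions, on all abelian varieties (and on all varieties which are
   dominated by products of any number of the varieties `C j`) are generated by the Tate classes of
   codimension two on the products `C j₁ × C j₂ × C j₃ × E` with the fixed factor `E`.* Precisely: each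
   system of cohomology classes, on all varieties, which contains the classes of algebraic cycles, is
   stable under linear combinations, cup products, pull-backs and push-forwards, and contains the
   (generalized) Tate classes of codimension two on these products contains all (generalized) Tate
   classes on the dominated varieties.
2. *The Tate conjecture with semisimplicity, in all codimensions, for `W'` and all dominated varieties
   is equivalent to the Tate conjecture with semisimplicity in codimension two for `W` and the products
   `C j₁ × C j₂ × C j₃ × E`.*
3. *If Frobenius is semisimple on `H¹ (C j)` (for abelian varieties a theorem of Weil) it is equivalent to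
   the Tate conjecture in codimension two for `W` and these products.*
4. *In this case homological and numerical equivalence agree, for `W'`, on all dominated varieties.*

**So the question of the problem, for a given `p`, for all abelian varieties, all primes `ℓ` and all
codimensions, is equivalent to the question for one prime `ℓ`, in codimension two, for the products
`A × B × C × E` with `A`, `B`, `C` simple and `E` a fixed supersingular elliptic curve.** (In codimension
one, and for three curves, the Tate conjecture is known.) The remaining Tate classes are in
`H¹ (A) ⊗ H¹ (B) ⊗ H¹ (C) ⊗ H¹ (E)`, up to classes of divisors; they correspond to the relations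
`α β γ = q √q`, up to roots of unity, between Weil numbers of weight one, equivalently to the relations
`α β = γ' √q`.

One can also take smaller families: let `K` be a finite CM Galois extension of `ℚ` and `N ≥ 1`, and let
the `C j` be all simple abelian varieties (up to isogeny finitely many) whose Weil numbers belong to `K`
and have slopes in `(1 / 2 N) ℤ` (`Λ = (1 / 2 N) ℤ`). The statement about all abelian varieties is the
case in which `K` is the union of all CM fields and `Λ = ℚ`. The field `K` is embedded in the fields of
coefficients by `σ` and `σ'`, and `c` is its complex conjugation.

The proof. Up to roots of unity, a product of Weil numbers is determined by its weight and its slopes.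
The cohomology of a product is spanned by words in generalized eigenvectors in `H¹`, and a word is a Tate
class if and only if the sum of the functions `s = 1 / 2 - slope` of its letters is zero. If the values
of two letters `f`, `g` at some place have opposite signs, they can be replaced by `u`, `u'` with
`f + g = u + u'` and fewer nonzero values (`even_induction`). New here: the word `(f, g, -u, -u')` is, up
to pairs `(x, -x)`, a product of four words with three letters and a letter `0` (`alg_four_of_three`). The
difference `δ = f - u = u' - g` has values between `-1` and `1`; it is the sum of its truncation `δ₁` and
of `δ₂`, both with values between `-1/2` and `1/2`, and `f - δ₁` has values between `-1/2` and `1/2`; so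
one passes from `f` to `f - δ₁` and then to `u`, and from `g` to `g + δ₂` and then to `u'`, by the words
`(f, -(f - δ₁), -δ₁, 0)`, `(f - δ₁, -u, -δ₂, 0)`, `(g, -(g + δ₂), δ₂, 0)` and `(g + δ₂, -u', δ₁, 0)`, up to
the order. The letters `0` are classes on `E`, and they are removed in pairs by duality on `E`. The
independence of the prime is proved with the orders of the poles of the zeta functions
(`MP_557161_ag.PolesFromSmallProducts`, `MP_60ec62_ag.OnePrimeSmallProducts`).

Earlier work: Honda (existence), Tate (the criterion with the order of the pole), Milne (Motives over
finite fields; Lefschetz motives and the Tate conjecture: the Hodge conjecture for abelian varieties of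
CM type implies the Tate conjecture for abelian varieties over finite fields), Hazama (On the general
Hodge conjecture for abelian varieties of CM-type: for these the Hodge conjecture follows from the case
of codimension two), Soulé (products of three curves). The reduction to codimension two can be expected
from Milne and Hazama together; the supersingular factor and the version with generators are new as far
as I know.
-/

set_option autoImplicit false

open CategoryTheory AlgebraicGeometry

universe u v v' w

namespace Pool.Agent.Results.MP_ee618e_ag.ThreeFactorsOnePrime

open Pool.Agent.H914 Pool.Agent.W534 Pool.Agent.Run7.h142.GT Pool.Agent.Run7.h142.CE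
  Pool.Agent.Run7.h142.CF VarClass Obj WeilCohomology

/-- **The Tate classes on all varieties dominated by products of the `C j` are generated by those of
codimension two on the products of three of the `C j` and of `E = C e`; and the Tate conjecture for these
products and one cohomology theory `W` implies it for all dominated varieties and all theories `W'`.** -/
theorem result {k : Type u} [Field k] {𝒱 : VarClass k} {ops : CycleOps 𝒱}
    (W : WeilCohomology.{u, v} ops) (W' : WeilCohomology.{u, v'} ops) (p : ℕ) [Fact p.Prime]
    (Φ : FrobSystem W p) (Φ' : FrobSystem W' p) (ι : W.K →+* ℂ) (ι' : W'.K →+* ℂ) (K : Type)
    [Field K] [CharZero K] [Algebra.IsAlgebraic ℚ K] (σ : K →+* W.K) (σ' : K →+* W'.K)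
    (c : K →+* K) (Λ : AddSubgroup ℝ) (hΛ : (1 / 2 : ℝ) ∈ Λ) {J : Type w} (C : J → 𝒱.Obj)
    (h : IsTheoryFor Φ ι σ c Λ C) (h' : IsTheoryFor Φ' ι' σ' c Λ C) (hz : SameZeta Φ ι Φ' ι')
    (e : J) (he : HasHalf Φ σ (C e)) :
    GeneratedByThree Φ C (C e) ∧
    (TateForAll Φ' C ↔ ForThree C (C e) fun Z => ∀ b, TateAt Φ Z b 2) ∧
    ((∀ j, IsSemisimple Φ 1 (C j)) →
      (TateForAll Φ' C ↔ ForThree C (C e) fun Z => TateAt Φ Z 1 2)) ∧
    ((ForThree C (C e) fun Z => ∀ b, TateAt Φ Z b 2) →
      ∀ Y, IsDominatedByAll W' C Y → HomEqNum W' Y) :=
  ⟨generated_by_three hΛ h.complete he, all_iff_three hΛ h h' hz he,
    all_iff_three_one hΛ h h' hz he, fun hT _ hY => homEqNum_of_three hΛ h h' hz he hT hY⟩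

end Pool.Agent.Results.MP_ee618e_ag.ThreeFactorsOnePrime
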